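import Pool.Agent.ADT.T6
import Pool.Agent.ADH.T7
import Pool.Agent.FRT.P4
import Pool.Agent.QD.Crit
import Pool.Agent.QD.G
import Pool.Agent.QD.HW
import Pool.Agent.QD.T4
import Pool.Agent.SHL.FL
import Pool.Agent.SHL.FF

/-!
# MP_ae0bd0_nt (BSD rank conjecture): elliptic curves over function fields

Let `k` be a finite field of characteristic `p`, `K` a function field in one variable over `k`, and `E`
an elliptic curve over `K`. We show that for every prime `ℓ ≠ p` the `ℓ`-primary part of `Ш(E/K)` is
finite in the following cases. Let `A` be the set of the polynomials whose exponents are `0`, `p ^ i`,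
and `Q` the set of the polynomials whose exponents are `0`, `p ^ i`, `p ^ i + p ^ j`; the degrees are not
bounded. In (a), …, (d) the curve `E` is given over `k(s)`, `K ⊇ k(s)`.

(a) `K = k(s)`, `E : y² = x³ + a₂(s) x² + a₄(s) x + a₆(s)` with `deg a_i ≤ i p`, and either `p = 3` and `a₂` is
a cube, or `p = 5`, `a₂ = 0`, and `a₄` is a fifth power. In both cases the Hasse invariant of `E` is a
`p`-th power. These curves include all `E` over `k(s)`, `p = 3, 5`, such that the elliptic surface `X` is of
geometric genus `p - 1` and the Frobenius is zero on `H²(X, O_X)`: if the line bundle of the elliptic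
surface is `O(n)`, `n = p_g + 1`, then `H²(X, O_X) = H¹(P¹, O(-n))` has the basis `s^(-i)`, `0 < i < n`, and
the Frobenius maps `s^(-i)` to the class of `H s^(-p i)`, where `H` is the Hasse invariant, of degree at
most `(p - 1) n`; for `n = p` this is zero for all `i` if and only if the exponents of `H` are divisible by
`p`. For `n > p` it is zero for all `i` only if `H = 0`, and then `j` is constant (for `p = 3` this is also
in (e), with `t = y`, `F = k(s)`). So for `p = 3`, together with the known cases `p_g ≤ 1` and `j ∈ k`,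
these are all elliptic curves over `k(s)` such that the Frobenius is zero on `H²(X, O_X)`, without a
condition on `p_g`. In general `X` has only singular fibres of type `I₁`, and `L(E/k(s), T)` has degree
`12 p - 4`.

(b) `K` is contained in `k(s)(z_1, …, z_r)`, where `φ_j(z_j) = F_j(s)` for additive separable
polynomials `φ_j` and polynomials `F_j` over `k` of degree at most `m`, and (b1) `E` has a Weierstrass
equation over `k[s]` (with `a₁, a₂, a₃, a₄, a₆`; `p = 2` is allowed) with
`deg a_i ≤ i (1 - m (1 - 1/e - 1/p))` for an integer `e ≥ 2` prime to `p`, `m ≥ 1`. For `m = 1` the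
field `K` is rational over its field of constants; for `m ≥ 2` the genus of `K` is not bounded. If
`p = 2` or `p = 3` the condition says that `deg a_i ≤ i (1 - m/6)`; for `m = 1` these are all `E` over
`k(s)` whose elliptic surface is rational, with additive reduction at `s = ∞`. If `p = 5` it says that
`deg a_i ≤ i (1 - 3m/10)`, if `p = 7` that `deg a_i ≤ i (1 - 5m/14)`. Or (b2) `p = 2`, `m = 6` and
`E : y² + x y + a₃(s) y = x³ + a₂(s) x² + a₄(s) x + a₆(s)`, where `a₂`, `a₃`, `a₄`, `a₆` are of degree
at most 6, 6, 18, 30. These are the `E` over `k(s)` with good ordinary or multiplicative reduction at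
all places `s ≠ ∞` and bounded wild ramification at `s = ∞`. Already for `K = k(s)` the geometric genus
of the elliptic surface is 4, and `L(E/k(s), T)` has degree 56, for general `a₆` of degree 30. Or (b3)
`p = 3`, `m = 6` and `E : y² = x³ + c x² + a₄(s) x + a₆(s)`, `c ∈ k`, where `a₄`, `a₆` are of degree at
most 12, 24. For `c ≠ 0` these are the `E` over `k(s)` with good ordinary or multiplicative reduction at
all places `s ≠ ∞` and bounded wild ramification at `s = ∞`; already for `K = k(s)` the geometric genus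
of the elliptic surface is 3, and `L(E/k(s), T)` has degree 44, for general `a₆` of degree 24.

(c) `p` is odd, `K = k(s)` and `E : y² = G(x, g, h)` for a cubic form `G` over `k`, `G(1, 0, 0) = 1`, or `E` is
the Jacobian of the curve `v² = b₄ u⁴ + b₃ u³ + b₂ u² + b₁ u + b₀`, that is
`E : y² = x³ + b₂ x² + (b₃ b₁ - 4 b₄ b₀) x + (b₃² b₀ + b₄ b₁² - 4 b₄ b₂ b₀)`, where the polynomials
`g, h` resp. `b₀, …, b₄` are (H) in `A`, or (J) linear combinations over `k` of `1`, `s`, `s^q`, `s^(q+1)`, for
a power `q > 1` of `p`, or (M) linear combinations over `k` of `s^m`, `s^n`, for some `m`, `n`. For `b₄ = 0`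
the curves of the second form are the curves `v² = b₃ u³ + b₂ u² + b₁ u + b₀`, `x = b₃ u`, `y = b₃ v`. For
`g = 1` the curves of the first form are the curves `y² = x³ + a₂(h) x² + a₄(h) x + a₆(h)`, where `a₂`,
`a₄`, `a₆` are arbitrary polynomials over `k` of degree at most 1, 2, 3, and `h` is `s^n`, `n ≥ 1`, or an
additive polynomial, or a combination of `1`, `s`, `s^q`, `s^(q+1)`: the pull-backs of the general
rational elliptic surface with a fibre of type `I₀*`, or worse, at infinity.

(d) `K` is contained in `k(s)(z_1, …, z_r)`, where `φ_j(z_j) = F_j(s)` for additive separable polynomials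
`φ_j` and polynomials `F_j` over `k`, and either `p = 2` and `E : y² + x y = x³ + a₂ x² + q₁ q₂`, or `p = 3`
and `E : y² = x³ + c x² + q₁ q₂`, `c ∈ k*`, where the polynomials `a₂` (for `p = 2`), `q₁`, `q₂`, `F_j` are
in `Q`. For `p = 2` every curve with `a₁ = 1` is of the form `y² + x y = x³ + a₂ x² + a₆` up to a change of
coordinates, and similarly for `p = 3` if `a₂ ∈ k*`.

In (c) and (d) the geometric genus `p_g` of the elliptic surface and the degree of `L(E/k(s), T)` are
not bounded, already for `K = k(s)`, and `j` is not constant, in general. In (H), (J) and (d) the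
elliptic surface is dominated by a surface with a second fibration, by supersingular curves of unbounded
genus; in (d), and in (H) for degrees larger than `p`, these curves are not isomorphic to each other, in
general. In (H), if `g, h` or the `b_i` are general of degree `q`, a power of `p`, then `E` has `6 q`
geometric fibres of type `I₁` and a fibre of type `I₀*` at `s = ∞`, `p_g = (q - 1) / 2`, and
`L(E/k(s), T)` has degree `6 q - 2`. In (J), if `g, h` or the `b_i` are general, then `E` has
`6 (q + 1)` geometric fibres of type `I₁` and good reduction elsewhere, `p_g = (q - 1) / 2`, and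
`L(E/k(s), T)` has degree `6 q + 2`. In (d) the curve has good ordinary or multiplicative reduction at
the places `s ≠ ∞` of `k(s)`, and in general wild ramification at `s = ∞`; the discriminant is `q₁ q₂`
resp. `- c³ q₁ q₂`, and `p_g` is in general between about an eighth and a sixth of its degree. The
fields `K` in (d) may be the function fields of the Hermitian curves `z ^ q + z = s ^ (q + 1)` and of
the other curves `z ^ p - z = s R(s)`, `R` additive, of van der Geer and van der Vlugt, and their
composita.

(e) The criterion: the field `K(E)` of functions of `E` is contained in `F(t)(z_1, …, z_r)`, where `F` is a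
finitely generated extension of `k` of transcendence degree one, `t` is transcendental over `F`, and
`φ_j(z_j) = f_j(t)` for additive separable polynomials `φ_j` over `F` and polynomials `f_j` over `F`
which are in `Q`. So the elliptic surface is dominated by a surface which has a second fibration, over
a curve with the function field `F`, by the curves `φ_j(z_j) = f_j(t)`.

Further cases are proved in our libraries, but not stated here: in (d) and (e) the polynomials with the
exponents `0`, `N p ^ i` instead of `Q`, for one `N` (`QD.P3`), and the polynomials with the exponents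
`n p ^ i`, `n ≤ 5` for `p = 3` and `n ≤ 3` for `p = 5` (`QD.K3`); a substitution `s = r(τ)` in (d)
(`QD.G`); the curves `y² + α x y + b₁ b₂ y = x³ + β b₂ x² + γ b₂² x + b₀ b₂³`, `α, β, γ ∈ k`, `b_i ∈ A`,
for `p ≤ 5` (`QD.K6`); denominators in (b3), and `p = 3`, `m = 3`, `deg a₂, a₄, a₆ ≤ 1, 8, 15`
(`FRT.P4`); mixed towers for `p = 2` (`FRB.E1b`); and for `p = 5` the curves `y² = x³ + g⁵ h x + b`,
`deg g + deg h ≤ 4`, `6 deg h + deg b ≤ 30` (`ADH.V7`).

The finiteness of the `ℓ`-primary part of `Ш(E/K)` for one `ℓ` is equivalent to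
`rk E(K) = ord_{s=1} L(E,s)` (Tate 1966, Milne 1975). This fact is not formalized here.

What is known. For `p_g ≤ 1` (rational and K3 surfaces), for constant `j`, and for elliptic surfaces
which are dominated by products of curves the conjecture is known (Milne, Artin and Swinnerton-Dyer,
Tate, …). The curves `φ_j(z_j) = f_j(t)` over `F` in (e) are supersingular if the `f_j` are in `Q`; by a
theorem of Oort their Jacobians become isogenous to constant abelian varieties over a finite
extension of `F`, for which the conjecture was proved by Milne, so the Tate conjecture for the surfaces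
in (e) could also be obtained in this way. In (J), in (H) for degree at most `p`, and in (M), the fibres
of the second fibration are isomorphic to one curve, `v² = s - s^q` resp. `v² = s^m (1 - s^N)`, over an
algebraic closure of `F`, so that the elliptic surface is dominated by a product of curves. We do not
know an earlier result on the curves in (c) or (d), apart from special cases like
`y² + x y = x³ + s^d`, `d = 2^n + 1` (Ulmer), and curves which are given by few monomials. The cases (a)
and (b) are not of this kind: there is no second fibration in their proofs.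

Idea of the proof. (1) By (3) it is enough to prove the Tate conjecture for divisors for the function
field `K(x,y)` of the elliptic surface, in the form `T₁`. Case (e): (1e) By the norm relations in the
group ring of `F_p ^ r` one is reduced to the cyclic extensions `z ^ p - z = f(t)` of `F(t)`, for a
finite extension `F` of the given one. By the theorem behind `MP_17a657_ag.ArtinSchreierQuotients` it is
enough that the threefold `w ^ p - w + a ^ e = f(t)` over `F` is uniruled, `e = 2` for odd `p` and
`e = 3` for `p = 2`. There are arcs `t = t₀ + ∑ σ_i τ ^ (p ^ i)`, `i ≤ m`, `a = a₀ + ∑ α_i τ ^ (p ^ i)`,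
`i ≤ r`, because `f(t) - a ^ e` is a polynomial in `τ` with the exponents `0`, `p ^ i`, `p ^ i + p ^ j`;
it is of the form `w ^ p - w` up to a constant if for each difference `j - i` a certain sum of
`p`-powers of its coefficients is zero, and similarly for the exponents `p ^ i`. For large `m` the
number of these equations, which is about `m` plus a constant for `r = m + const`, is smaller than the
number `m + r + 2` of the unknowns `σ_i`, `α_i`. Case (c): (1c) The elliptic surface is dominated by a
surface `v² = D(s)` over a curve with the function field `F`, where `D` is a polynomial over `F` of the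
type (H), (J) or (M). First form: let `X = x / g`, `s' = h / g`, then `(y/g)² = g c(X, s')` for a
polynomial `c` of total degree 3. Through the generic point of the plane there is a tangent line of the
cubic curve `c = 0`, and the restriction of `c` to this line is of the form `c₃ (s' - l) (s' - d)²`, so
`K(E)` is contained in `F(s)(w)`, `w² = h - l g`, where `F` is a finite extension of the function field
of the cubic curve. Second form: let `b = b₄ u⁴ + … + b₀`. The function `u` is a root of
`B(u) = 4 x b(u)`, where `B` is the quartic covariant of `b`, and `y` is given by the sextic covariant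
and the syzygy: the map `(u,v) ↦ (x,y)` is the covering of degree four of the Jacobian by the curve of
genus one `v² = b(u)`; here `F = k(u)`. In (H), `v² = φ(s) + const` is an equation as in (e) with
`t = v`, `z = s` (after the extraction of `p`-th roots if `φ` is not separable). In (J),
`v² = a s^(q+1) + b s^q + c s + d` with coefficients in `F`; if `a ≠ 0` let `s₀` be a root of the right
side, `r = 1 / (s - s₀)`, `w = v r^((q+1)/2)`, then `w² = b' r^q + c' r + a`, and a substitution
`r = λ r' + μ`, `w = ε t` gives `t² = r' - r'^q`, so one takes `z = r'` and a finite extension of `F`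
(Lang's theorem for forms which are linear in `(s^q, 1)` and in `(s, 1)`). In (M), `v² = a s^m + b s^n`,
and a substitution `s = λ s'`, `v = ε v'` gives `v'² = s'^m (1 - s'^N)`, a product of curves. Case (d):
(1d) `t = s` and `F = k(u)`. For `p = 2`, `x = q₁ u + q₂ / u`, `w = y / x + q₂ / (q₁ u² + q₂)`,
`w² + w = q₁ u + q₂ / u + a₂`. For `p = 3`, `c = d²`, `C = c (t₀³ - t₀)`, `x = c (t₀² - 1)`,
`y + d C = d³ q₁ u`, `y - d C = q₂ / (d³ u)`, `t₀³ - t₀ = q₂ / (c³ u) - q₁ u`. Case (b1): (1b1) Let `K₀`
be the field of functions of the surface over `k(s)`. The field `K(x,y)` is contained in an elementary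
abelian extension of `K₀`, up to constants, and by the norm relations it is enough to consider the
cyclic extensions `K₀(z)`, `z^p - z = F(s)`. By the theorem behind `MP_17a657_ag.ArtinSchreierQuotients`
the group `V_ℓ` of `K₀(z)` embeds in a product of the groups of finitely many fields `K₁ K₂` with `K₁`,
`K₂` of transcendence degree one, and of `K₀`, if the threefold `w^p - w + a^e = F(s)` over `K₀` is
uniruled; this threefold is a complete intersection of two hypersurfaces of weighted degrees `6N` (the
Weierstrass equation) and `D` in the variables `x, y, s, a, w` of weights `2N, 3N, σ, α, γ`, and the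
condition on the degrees of the `a_i` says that `6N + D ≤ 5N + σ + α + γ`, so that there are polynomial
arcs through the generic point. Case (b2): (1b2) Let `p = 2` and `a₃ = 0`. With `b = a₆ + a₄²`,
`x = U⁴ + b / U⁴` and `w = (y + a₄) / x + U + U² + b / (U⁸ + b) + a₄ / U²` the equation of `E` becomes
`w² + w = U + a₂ + a₄ / U² + a₆ / U⁴`, so `K(x,y)` is contained in a tower of Artin-Schreier extensions
of the rational surface with the coordinates `U`, `s`, `z² + z = f(U,s) / U⁶`. As in (1b1) it is enough
that the threefolds `w² + w + a³ = f / U⁶` are uniruled; after multiplication by `U⁶` this is a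
hypersurface of weighted degree 42 in the variables `U, s, a U², w U³` of weights `6, 1, 14, 21`, and
there are again arcs. Case (b3): (1b3) The field `K(x,y)` is contained in a field `K₀(y, Y_1, …, Y_r)`,
up to constants, where `K₀ = k(x,s)` and the `Y_i³ - Y_i` are of the form `F(s)`, `deg F ≤ m`, and as in
(1b1) it is enough to consider the fields `K₀(y, Y)`. If the threefold `w³ - w + y² a² = Y³ - Y` over
`K₀` is uniruled, then `V_ℓ` of `K₀(y, Y)` embeds in a product of the groups of finitely many fields
`K₁ K₂`, of `K₀`, of `K₀(Y)` and of `K₀(y)`: the embeddings are constructed from the correspondences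
`c ↦ c^q` of the line with the coordinate `a²`, which is the quotient of the curve `U³ - U = a²` by the
automorphisms `U ↦ U + 1`, `a ↦ -a`. With `a = 1 / v³` and `w = (U - x) / v²` the equation of the
threefold is `U³ - v⁴ U + v⁴ x + c x² + a₄ x + a₆ = F v⁶`, of degree 24 for the weights `12, 1, 3, 8` of
`x, s, v, U`. For `F = 0` this is also the equation of the threefold `v⁶ (a³ - a) = y²`, with
`U = x - v² a`, and the theorem behind `MP_17a657_ag.UniruledCyclicQuotients`, applied to the function
`(a³ - a) (a + 1)⁴` of the parameter `a`, gives `T₁` for `K₀(y)`. Case (a): (1a) If `p = 3` and `a₂ = 0`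
this is the equation `x³ + a₄ x = y² - a₆` over `k(s)`, as in (e) with `t = y`. If `p = 3` and
`a₂ = h³ ≠ 0` then one can assume that `deg h ≤ 1`, after a change of the coordinate `s` over a
quadratic extension of `k` which moves a root of `h` to infinity (the conditions on the degrees are
symmetric). With `X = h³ x`, `z = y`, `f = a₄`, `g = h³ a₆`, `K₀ = k(X,s)` the equation of `E` is
`z² h⁹ = X³ + h⁶ (X² + f X + g)`, where `f`, `g` are of degree at most 12, 24, and the threefold
`v⁶ (a³ - a) = z²` over `K₀`, with `U = (X - h³ v² a) / h²`, is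
`U³ - h² v⁴ U + v⁴ X + X² + f X + g = 0`, of degree 24 for the weights `12, 1, 3, 8` of `X, s, v, U`, so
that the theorem behind `MP_17a657_ag.UniruledCyclicQuotients` applies as in (1b3). If `p = 5`, let
`a₄ = A = g⁵`, `b = a₆`, `ρ² - x ρ + 3 A = 0` and `R = ρ³`. Then `y² R = D` where `D = R² + b R + 2 A³`,
so `K(x,y)` is contained in the Kummer extension `K₀(z)` of degree 6 of `K₀ = k(ζ₃)(s,R)`, `z = y ρ²`,
`z⁶ = R D³`, as the field of invariants of `ρ ↦ 3 A / ρ`, `y ↦ y`, which together with the Galois group
over `K₀` generates a dihedral group. The theorem behind `MP_17a657_ag.UniruledCyclicQuotients` is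
refined for such fields: the group `V_ℓ` of `K(x,y)` embeds in the product of the groups of finitely
many fields `K₁ K₂` as above and of the rational fields `K₀`, `K₀(ρ)`, `k(ζ₃)(s,y)` if the threefold
`v⁶ (a + 1) = z⁶ a³` over `K₀` is uniruled, that is the threefold `Y² = X³ + R D³`. If
`R = t + 2 b + c / t`, `c = b² + 2 A³`, then `D = (t - c / t)²`, and if `t = v⁵ - b` then
`R = (v² + 2 g³)⁵ / (v⁵ - b)`, so this threefold is dominated by `y² = x³ + (v⁵ - b) (v² + 2 g³)`, of
degree 42 for the weights `1, 6, 14, 21` of `s, v, x, y`. (2) For products of curves over finite fields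
`T₁` is the theorem of Tate (1966); it is proved in the library `TIF`: the elements of `T_ℓ Br` are
invariant endomorphisms of the Tate module of a Jacobian, which is constructed as the class group of an
affine curve; theta functions are determinants of values of functions on the curve; the finiteness of
the number of quotients of the eighth power of the Jacobian by Lagrangian subgroups, with their theta
functions, is a counting argument over the finite field. (3) Let `(c_n)` represent an element of
`T_ℓ Ш(E/K)`. For points `A, B` of `E` let `H(A,B)` be the value at the generic point `(x,y)` of the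
function with divisor `(A) + (B) - (A+B) - (0)` with leading coefficient one at the origin. Then
`(σ,τ) ↦ H(c_n(σ), σ c_n(τ))` is a 2-cocycle with values in the units of an algebraic closure of
`K(x,y)`. It is unramified: at the valuations which are nontrivial on `K` this follows from local
triviality, at the others from the specialization of functions; so its class is zero over `K(x,y) k^s`.
The divisors of the functions in a cobounding cochain show that `c_n` is trivial over `K k^s`. (4)
Descent to `K`: let `M = E(K k^s)`. The group `M/ℓM` is finite: for `P = ℓ Q` the crossed homomorphisms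
`σ ↦ σ Q - Q` with values in `E[ℓ]` are unramified outside a finite set of places, and are classified by
Kummer theory over a function field with algebraically closed constants, where the `ℓ`-torsion of the
class groups is finite. The `ℓ`-primary part of `E(K)` is finite, by reduction at one place. These two
facts imply that `T_ℓ H¹(k', M) = 0`, `k'` the field of constants of `K`, so `T_ℓ Ш(E/K) = 0`. (5) The
group `Ш(E/K)[ℓ]` is finite by the same Kummer theory, so `T_ℓ Ш(E/K) = 0` implies that the `ℓ`-primary
part is finite. The divisibility by `ℓ` of the group of points over an algebraically closed field `F`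
and the finiteness of `E[ℓ]` are proved with the generic point of `E` over `F`, and the places of
`F(E)`.-/

set_option autoImplicit false

namespace Pool.Agent.Results.MP_ae0bd0_nt.FunctionFieldTowers

open Polynomial Pool.Agent Pool.Agent.UQ Pool.Agent.EFF Pool.Agent.ADT Pool.Agent.QD

open scoped Classical

/-- `c` represents an element of `Ш(W / K)`, where the places of `K` are those which are trivial
on `k`: a continuous crossed homomorphism which is principal at all places. -/
def IsSha (k : Type) [Field k] {K : Type} [Field K] (W : WeierstrassCurve K)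
    (Kb : Type) [Field Kb] [Algebra K Kb] [Algebra k Kb] (c : (Kb ≃ₐ[K] Kb) → Pts W Kb) : Prop :=
  Crossed W c ∧ ∀ V : ValuationSubring Kb, (∀ x : k, algebraMap k Kb x ∈ V) → V ≠ ⊤ →
    Principal W (Pool.Agent.T1B.stab V) c

/-- The `ℓ`-primary part of `Ш(W / K)` is finite. -/
def ShaFinite (k : Type) [Field k] {K : Type} [Field K] (W : WeierstrassCurve K)
    (Kb : Type) [Field Kb] [Algebra K Kb] [Algebra k Kb] (ℓ : ℕ) : Prop :=
  ∃ R : Set ((Kb ≃ₐ[K] Kb) → Pts W Kb), R.Finite ∧ (∀ r ∈ R, IsSha k W Kb r) ∧
    ∀ c : (Kb ≃ₐ[K] Kb) → Pts W Kb, IsSha k W Kb c →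
      (∃ n : ℕ, Principal W ⊤ (fun σ => ℓ ^ n • c σ)) →
        ∃ r ∈ R, Principal W ⊤ (fun σ => c σ - r σ)

/-- The curve over `K` whose coefficients are the values `a_i(s)`. -/
noncomputable def E {k K : Type} [Field k] [Field K] [Algebra k K] (W : WeierstrassCurve k[X])
    (s : K) : WeierstrassCurve K :=
  W.map (aeval s : k[X] →ₐ[k] K).toRingHom

/-- Case (a): `K = k(s)`, `a₁ = a₃ = 0`, and either `p = 3`, `a₂ = g³` and the degrees of `a₂`, `a₄`, `a₆` are
at most 6, 12, 18, or `p = 5`, `a₂ = 0`, `a₄ = g⁵` and the degrees of `a₄`, `a₆` are at most 20, 30. -/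
def CaseA {k K : Type} [Field k] [Field K] [Algebra k K] (p : ℕ) (W : WeierstrassCurve k[X])
    (s : K) : Prop :=
  IntermediateField.adjoin k {s} = ⊤ ∧ W.a₁ = 0 ∧ W.a₃ = 0 ∧ ∃ g : k[X],
    ((p = 3 ∧ W.a₂ = g ^ 3 ∧ g.natDegree ≤ 2 ∧ W.a₄.natDegree ≤ 12 ∧ W.a₆.natDegree ≤ 18) ∨
      (p = 5 ∧ W.a₂ = 0 ∧ W.a₄ = g ^ 5 ∧ g.natDegree ≤ 4 ∧ W.a₆.natDegree ≤ 30))

/-- `φ(z) = f(t)` with an additive separable polynomial `φ` over `L` and a polynomial `f` over `L` with
the property `P`. -/
def Layer (L : Type) {M : Type} [Field L] [Field M] [Algebra L M] (P : L[X] → Prop) (t z : M) :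
    Prop :=
  ∃ φ f : L[X], AddPoly φ ∧ derivative φ ≠ 0 ∧ P f ∧ aeval z φ = aeval t f

/-- `K` is contained in `k(s)(S)`, where `S` is a finite set and `φ(z) = f(s)` for every `z ∈ S`, with an
additive separable polynomial `φ` over `k` and a polynomial `f` over `k` with the property `P`. -/
def Tower (k : Type) {K : Type} [Field k] [Field K] [Algebra k K] (P : k[X] → Prop) (s : K) :
    Prop :=
  ∃ S : Finset (AlgebraicClosure K),
    (∀ z ∈ S, Layer k P (algebraMap K (AlgebraicClosure K) s) z) ∧
    ∀ a : K, algebraMap K (AlgebraicClosure K) a ∈ IntermediateField.adjoin k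
      (insert (algebraMap K (AlgebraicClosure K) s) (S : Set (AlgebraicClosure K)))

/-- Case (b): `K` is contained in `k(s)(S)`, `φ(z) = f(s)` for `z ∈ S`, `f` of degree at most `m`, and either
`m ≥ 1`, `deg a_i ≤ i (1 - m (1 - 1 / e - 1 / p))` for some `e ≥ 2` prime to `p`; or `p = 2`, `m = 6` and
`y² + x y + a₃(s) y = x³ + a₂(s) x² + a₄(s) x + a₆(s)`, the degrees of `a₂`, `a₃`, `a₄`, `a₆` are at most
6, 6, 18, 30; or `p = 3`, `m = 6` and `y² = x³ + a₂(s) x² + a₄(s) x + a₆(s)`, the degrees of `a₂`, `a₄`,
`a₆` are at most 0, 12, 24. -/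
def CaseB {k K : Type} [Field k] [Field K] [Algebra k K] (p : ℕ) (W : WeierstrassCurve k[X])
    (s : K) : Prop :=
  (∃ e m : ℕ, 2 ≤ e ∧ ¬ p ∣ e ∧ 0 < m ∧ DegLe W (1 - m * (1 - 1 / e - 1 / p)) ∧
    Tower k (fun f => f.natDegree ≤ m) s) ∨
  Tower k (fun f => f.natDegree ≤ 6) s ∧
    ((p = 2 ∧ W.a₁ = 1 ∧ W.a₂.natDegree ≤ 6 ∧ W.a₃.natDegree ≤ 6 ∧ W.a₄.natDegree ≤ 18 ∧
      W.a₆.natDegree ≤ 30) ∨
    (p = 3 ∧ W.a₁ = 0 ∧ W.a₃ = 0 ∧ W.a₂.natDegree = 0 ∧ W.a₄.natDegree ≤ 12 ∧
      W.a₆.natDegree ≤ 24))

/-- The polynomials `B i` are all of one of the following types: the exponents are `0`, `p ^ i`; or they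
are linear combinations of `1`, `X`, `X ^ q`, `X ^ (q + 1)`, `q = p ^ j`, `j ≥ 1`; or they are linear
combinations of `X ^ m`, `X ^ n`. -/
def InV {k : Type} [Field k] (p : ℕ) {r : ℕ} (B : Fin r → k[X]) : Prop :=
  (∀ i, Low1 p (B i)) ∨
    (∃ j : ℕ, j ≠ 0 ∧ ∀ i, ∃ a b c d : k,
      B i = C a * X ^ (p ^ j + 1) + C b * X ^ p ^ j + C c * X + C d) ∨
    ∃ m n : ℕ, ∀ i, ∃ a b : k, B i = C a * X ^ m + C b * X ^ n

/-- `W` is `y² = G(x, g, h)`, where `G` is a cubic form over `k`, `G(1, 0, 0) = 1`: `a₁ = a₃ = 0`, and `a₂`,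
`a₄`, `a₆` are forms of degree 1, 2, 3 in `g`, `h` with coefficients in `k`. -/
def Form {k : Type} [Field k] (W : WeierstrassCurve k[X]) (g h : k[X]) : Prop :=
  W.a₁ = 0 ∧ W.a₃ = 0 ∧ ∀ d : Fin 3, ∃ c : ℕ → k,
    ![W.a₂, W.a₄, W.a₆] d = ∑ i ∈ Finset.range (d + 2), C (c i) * g ^ ((d : ℕ) + 1 - i) * h ^ i

/-- `W` is the Jacobian of `v² = B₄ u⁴ + B₃ u³ + B₂ u² + B₁ u + B₀`: `a₁ = a₃ = 0` and `a₂`, `a₄`, `a₆`
are `B₂`, `B₃ B₁ - 4 B₄ B₀`, `B₃² B₀ + B₄ B₁² - 4 B₄ B₂ B₀`. -/
def Jac {k : Type} [Field k] (W : WeierstrassCurve k[X]) (B : Fin 5 → k[X]) : Prop :=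
  W.a₁ = 0 ∧ W.a₃ = 0 ∧ W.a₂ = B 2 ∧ W.a₄ = B 3 * B 1 - 4 * B 4 * B 0 ∧
    W.a₆ = B 3 ^ 2 * B 0 + B 4 * B 1 ^ 2 - 4 * B 4 * B 2 * B 0

/-- Case (c): `p` is odd, `K = k(s)`, and `Form W g h`, or `Jac W B`, where the polynomials `g`, `h`
resp. the polynomials `B i` are of one of the types in `InV`. -/
def CaseC {k K : Type} [Field k] [Field K] [Algebra k K] (p : ℕ) (W : WeierstrassCurve k[X])
    (s : K) : Prop :=
  p ≠ 2 ∧ IntermediateField.adjoin k {s} = ⊤ ∧
    ((∃ B : Fin 2 → k[X], InV p B ∧ Form W (B 0) (B 1)) ∨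
      ∃ B : Fin 5 → k[X], InV p B ∧ Jac W B)

/-- Case (d): `p = 2` and `y² + x y = x³ + a₂ x² + g h`, or `p = 3` and `y² = x³ + a₂ x² + g h`, `a₂ ∈ k`,
where the exponents of `a₂`, `g`, `h` are `0`, `p ^ i`, `p ^ i + p ^ j`, and `K` is contained in `k(s)(S)`,
`φ(z) = f(s)` for `z ∈ S`, `f` with exponents `0`, `p ^ i`, `p ^ i + p ^ j`. -/
def CaseD {k K : Type} [Field k] [Field K] [Algebra k K] (p : ℕ) (W : WeierstrassCurve k[X])
    (s : K) : Prop :=
  W.a₃ = 0 ∧ W.a₄ = 0 ∧ Low2 p W.a₂ ∧ (∃ g h : k[X], Low2 p g ∧ Low2 p h ∧ W.a₆ = g * h) ∧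
    ((p = 2 ∧ W.a₁ = 1) ∨ (p = 3 ∧ W.a₁ = 0 ∧ W.a₂.natDegree = 0)) ∧ Tower k (Low2 p) s

/-- The field `F(t)(S)`. -/
def Gen {k M : Type} [Field k] [Field M] [Algebra k M] (F : IntermediateField k M) (t : M)
    (S : Set M) : IntermediateField k M :=
  F ⊔ IntermediateField.adjoin k (insert t S)

/-- Case (e), the criterion: `K` is finite over `k(s)`, and the function field `K(x,y)` of `W` is
contained in `F(t)(S)`, where `F` is a finitely generated field over `k` of transcendence degree one,
`t` is transcendental over `F`, `S` is a finite set and `φ(z) = f(t)` for every `z ∈ S`, with an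
additive separable polynomial `φ` and a polynomial `f` with coefficients in `F` which may depend on
`z`; the exponents of `f` are `0`, `p ^ i`, `p ^ i + p ^ j`. All these fields are contained in `M`, an
algebraic closure of `F(t)`. -/
def CaseE {k K : Type} [Field k] [Field K] [Algebra k K] (p : ℕ) (W : WeierstrassCurve K)
    (s : K) : Prop :=
  FiniteDimensional (IntermediateField.adjoin k {s}) K ∧
  ∃ (M : Type) (_ : Field M) (_ : Algebra k M) (_ : Algebra K M) (_ : IsScalarTower k K M)
    (_ : IsAlgClosed M) (F : IntermediateField k M) (t x y : M) (S : Finset M),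
    F.FG ∧ Algebra.trdeg k F = 1 ∧ Transcendental F t ∧ (∀ b : M, IsAlgebraic (Gen F t ∅) b) ∧
    (∀ z ∈ S, Layer F (Low2 p) t z) ∧ Transcendental K x ∧
    (W.baseChange M).toAffine.Equation x y ∧ (∀ a : K, algebraMap K M a ∈ Gen F t S) ∧
    x ∈ Gen F t S ∧ y ∈ Gen F t S

/-- `F(t)(S)` in the form of the library. -/
private theorem gen_eq {k M : Type} [Field k] [Field M] [Algebra k M] (F : IntermediateField k M)
    (t : M) (S : Set M) : Gen F t S =
      F ⊔ IntermediateField.adjoin k {t} ⊔ IntermediateField.adjoin k S := by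
  rw [Gen, Set.insert_eq, IntermediateField.adjoin_union, sup_assoc]

private theorem gen_empty {k M : Type} [Field k] [Field M] [Algebra k M]
    (F : IntermediateField k M) (t : M) :
    Gen F t ∅ = F ⊔ IntermediateField.adjoin k {t} := by
  rw [Gen, insert_empty_eq]

/-- The Jacobian form. -/
private theorem hemt {k : Type} [Field k] [Finite k] (p : ℕ) [Fact p.Prime] [CharP k p]
    (hp : p ≠ 2) (B : Fin 5 → k[X]) (hB : InV p B) : HEmt k B := by
  rcases hB with hB | ⟨j, hj, hB⟩ | ⟨m, n, hB⟩
  · by_cases h0 : ∃ i, (B i).natDegree ≠ 0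
    · obtain ⟨i₀, h0⟩ := h0
      intro M _ _ _ htd t u v hu hv hal F hF hFal
      exact emt_H p htd t i₀ _ u v hu B hB h0 le_rfl hv hal F hF hFal
    · refine emt_M0 0 0 B fun i => ?_
      have h1 : (B i).natDegree = 0 := by
        by_contra h2
        exact h0 ⟨i, h2⟩
      obtain ⟨a, ha⟩ := natDegree_eq_zero.1 h1
      refine ⟨a, 0, ?_⟩
      rw [← ha, pow_zero, mul_one, map_zero, zero_mul, add_zero]
  · exact emt_J p hp j hj B hB
  · exact emt_M0 m n B hB

/-- The cases (a), …, (d). -/
private theorem fft_cases (k : Type) [Field k] [Finite k] (p : ℕ) [Fact p.Prime] [CharP k p]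
    (W : WeierstrassCurve k[X]) (hΔ : W.Δ ≠ 0) (K : Type) [Field K] [Algebra k K] (s : K)
    (hs : Transcendental k s)
    (h : CaseA p W s ∨ CaseB p W s ∨ CaseC p W s ∨ CaseD p W s) (ℓ : ℕ) (hℓ : ℓ.Prime)
    (hk : (ℓ : k) ≠ 0) :
    EFG.FF k K ∧ ∀ c : ℕ → (AlgebraicClosure K ≃ₐ[K] AlgebraicClosure K) →
      Pts (E W s) (AlgebraicClosure K), ShaSys (E W s) k ℓ c →
        ∀ n, Principal (E W s) (Pool.Agent.T1B.geo k K (AlgebraicClosure K)) (c n) := by
  rcases h with ⟨hK, w1, w3, g, ⟨rfl, w2, dg, d4, d6⟩ | ⟨rfl, w2, w4, dg, d6⟩⟩ |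
    (⟨e, m, he, hep, hm, hW, S, hS, hK⟩ |
    ⟨⟨S, hS, hK⟩, ⟨rfl, w1, d2, d3, d4, d6⟩ | ⟨rfl, w1, w3, d2, d4, d6⟩⟩) |
    ⟨hp, hK, ⟨B, hB, w1, w3, hG⟩ | ⟨B, hB, w1, w3, w2, w4, w6⟩⟩ |
    ⟨w3, w4, h2, ⟨q₁, q₂, h₁, h₂, w6⟩, hW, S, hS, hK⟩
  · exact ⟨EFG.ff_top hs hK, fun c hc n =>
      sha_HW s hs W hΔ w1 w3 g w2 dg d4 d6 hK ℓ hℓ hk c hc n⟩
  · exact ⟨EFG.ff_top hs hK, fun c hc n =>
      sha_HW5 s hs W hΔ w1 w2 w3 g w4 dg d6 hK ℓ hℓ hk c hc n⟩
  · refine ⟨EFG.ff_tower hs S (fun z hz => ?_) hK, fun c hc n =>
      sha_towerQ p s hs W hΔ e m he hep hm hW S hS hK ℓ hℓ hk c hc n⟩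
    obtain ⟨φ, F, -, a2, -, a4⟩ := hS z hz
    exact ⟨φ, F, a2, a4⟩
  · refine ⟨EFG.ff_tower hs S (fun z hz => ?_) hK, fun c hc n =>
      ADH.sha_C2 s hs W hΔ w1 d3 d4 d2 d6 S hS hK ℓ hℓ hk c hc n⟩
    obtain ⟨φ, F, -, a2, -, a4⟩ := hS z hz
    exact ⟨φ, F, a2, a4⟩
  · refine ⟨EFG.ff_tower hs S (fun z hz => ?_) hK, fun c hc n => ?_⟩
    · obtain ⟨φ, F, -, a2, -, a4⟩ := hS z hz
      exact ⟨φ, F, a2, a4⟩
    · refine FRT.sha_T3 s hs W hΔ w1 w3 1 W.a₂ W.a₄ W.a₆ one_ne_zero (by ring) (by ring) (by ring)
        12 3 8 24 (by norm_num) (by omega) (by omega) d6 (by norm_num) ?_ ?_ (by norm_num)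
        (by norm_num) S (fun z hz => ?_) hK ℓ hℓ hk c hc n
      · rw [natDegree_one]
        norm_num
      · rw [natDegree_one]
        norm_num
      · obtain ⟨φ, F, a1, a2, a3, a4⟩ := hS z hz
        refine ⟨φ, F, a1, a2, by omega, ?_⟩
        rw [map_one, one_pow, mul_one]
        exact a4
  · obtain ⟨a, ha⟩ := hG 0
    obtain ⟨b, hb⟩ := hG 1
    obtain ⟨e, he⟩ := hG 2
    refine ⟨EFG.ff_top hs hK, fun c hc n =>
      sha_T p hp s hs W hΔ ![a 0, a 1, b 0, b 1, b 2, e 0, e 1, e 2, e 3] (B 0) (B 1)
        (temt_V p hp B hB) w1 w3 ?_ ?_ ?_ hK ℓ hℓ hk c hc n⟩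
    · rw [show W.a₂ = _ from ha]
      simp [Finset.sum_range_succ]
    · rw [show W.a₄ = _ from hb]
      simp [Finset.sum_range_succ]
    · rw [show W.a₆ = _ from he]
      simp [Finset.sum_range_succ]
  · exact ⟨EFG.ff_top hs hK, fun c hc n =>
      sha_of_emt p hp s hs W hΔ B (hemt p hp B hB) w1 w3 w2 w4 w6 hK ℓ hℓ hk c hc n⟩
  · have hS' : ∀ z ∈ S, ∃ φ F : k[X], AddPoly φ ∧ derivative φ ≠ 0 ∧ Low2 p (F.comp X) ∧
        aeval z φ = aeval (algebraMap K (AlgebraicClosure K) s) F := by
      intro z hz
      obtain ⟨φ, F, a1, a2, a3, a4⟩ := hS z hz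
      exact ⟨φ, F, a1, a2, by rw [comp_X]; exact a3, a4⟩
    have hX : (X : k[X]).natDegree ≠ 0 := by
      rw [natDegree_X]
      exact one_ne_zero
    refine ⟨EFG.ff_tower hs S (fun z hz => ?_) hK, fun c hc n => ?_⟩
    · obtain ⟨φ, F, -, a2, -, a4⟩ := hS z hz
      exact ⟨φ, F, a2, a4⟩
    · rcases hW with ⟨rfl, w1⟩ | ⟨rfl, w1, w2⟩
      · exact sha_GQ 2 s hs W hΔ X hX (geoQ2 W hΔ w1 w3 w4 q₁ q₂ w6 X (by rw [comp_X]; exact h2)
          (by rw [comp_X]; exact h₁) (by rw [comp_X]; exact h₂)) S hS' hK ℓ hℓ hk c hc n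
      · obtain ⟨b, hb⟩ := natDegree_eq_zero.1 w2
        have hb0 : b ≠ 0 := by
          rintro rfl
          apply hΔ
          have h3 : (3 : k[X]) = 0 := by
            have h4 : ((3 : ℕ) : k[X]) = 0 := CharP.cast_eq_zero _ 3
            exact_mod_cast h4
          rw [WeierstrassCurve.Δ, WeierstrassCurve.b₂, WeierstrassCurve.b₄, WeierstrassCurve.b₆,
            WeierstrassCurve.b₈, w1, w3, w4, ← hb, map_zero]
          linear_combination (-144 * W.a₆ ^ 2) * h3
        exact sha_GQ 3 s hs W hΔ X hX (geoQ3 W hΔ w1 w3 w4 b hb0 hb.symm q₁ q₂ w6 X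
          (by rw [comp_X]; exact h₁) (by rw [comp_X]; exact h₂)) S hS' hK ℓ hℓ hk c hc n

/-- **Theorem.** Let `k` be a finite field of characteristic `p`, `K` a field over `k`, `s ∈ K`
transcendental over `k` and `W` an elliptic curve over `K` in one of the cases (a), …, (e); in the cases
(a), …, (d) the coefficients of `W` are the values at `s` of polynomials over `k`. Then the `ℓ`-primary
part of `Ш(W / K)` is finite for every prime `ℓ ≠ p`. -/
theorem result (k : Type) [Field k] [Finite k] (p : ℕ) [Fact p.Prime] [CharP k p]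
    (K : Type) [Field K] [Algebra k K] (s : K) (hs : Transcendental k s)
    (W : WeierstrassCurve K) (hΔ : W.Δ ≠ 0)
    (h : (∃ W₀ : WeierstrassCurve k[X], W = E W₀ s ∧
      (CaseA p W₀ s ∨ CaseB p W₀ s ∨ CaseC p W₀ s ∨ CaseD p W₀ s)) ∨ CaseE (k := k) p W s)
    (ℓ : ℕ) (hℓ : ℓ.Prime) (hk : (ℓ : k) ≠ 0) : ShaFinite k W (AlgebraicClosure K) ℓ := by
  have hℓ' : Fact ℓ.Prime := ⟨hℓ⟩
  have hB : EFG.FF k K ∧ ∀ c : ℕ → (AlgebraicClosure K ≃ₐ[K] AlgebraicClosure K) →
      Pts W (AlgebraicClosure K), ShaSys W k ℓ c →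
        ∀ n, Principal W (Pool.Agent.T1B.geo k K (AlgebraicClosure K)) (c n) := by
    rcases h with ⟨W₀, rfl, h⟩ | ⟨hKs, M, _, _, _, _, _, F, t, x, y, S, hF, htF, ht, hal, hS, hx,
      hy, hK, hxS, hyS⟩
    · refine fft_cases k p W₀ (fun h0 => hΔ ?_) K s hs h ℓ hℓ hk
      show (W₀.map (aeval s : k[X] →ₐ[k] K).toRingHom).Δ = 0
      rw [WeierstrassCurve.map_Δ, h0, map_zero]
    · rw [gen_empty] at hal
      rw [gen_eq] at hxS hyS
      simp only [gen_eq] at hK
      exact ⟨⟨s, hs, hKs⟩, fun c hc n =>
        sha_critK p s hs hKs W hΔ F t x y S hF htF ht hal hx hy hS hK hxS hyS ℓ hℓ hk c hc n⟩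
  obtain ⟨hFF, hB⟩ := hB
  obtain ⟨R, h1, h3, h4⟩ := SHL.sha_ell (k := k) W hΔ ℓ hk hB
  exact ⟨R, h1, h3, fun c hc hn => h4 c hc.1 hc.2 hn⟩

end Pool.Agent.Results.MP_ae0bd0_nt.FunctionFieldTowers
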