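import Mathlib
import Pool.Agent.GRO.FS4
import Pool.Agent.GRO.OC
import Pool.Agent.GRO.NV8
import Pool.Agent.GRA.MAIN
import Pool.Agent.GRA.EX

/-!
The Birch and Swinnerton-Dyer rank conjecture (rank = order of vanishing), with rank `0`, for at least 28.4% of the
quadratic twists, by elements of `K*`, of the elliptic curves of Gross: the elliptic curves over the Hilbert class field
`H` of `K = ℚ(√-q)` with complex multiplication by the ring of integers of `K` which are isogenous over `H` to their
conjugates over `K` (`GrossCurve`), for EVERY prime number `q` congruent to `7` modulo `8`. For `q = 7` (`H = K`) such twists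
are treated in earlier results; for class number greater than one the curves are not defined over `K`, even up to isomorphism
over the algebraic closure. (`ℚ(√-q)`, `q` a prime number congruent to `7` modulo `8`, are the imaginary quadratic fields of
odd class number in which `2` splits.)
-/

set_option autoImplicit false

open NumberField IsDedekindDomain Filter Topology
open scoped Classical

namespace Pool.Agent.Results.MP_ae0bd0_nt.GrossCurves

/-- `K = ℚ(√-q)` for a prime number `q` congruent to `7` modulo `8`, and `𝔭` is a prime ideal of `K` above `2`. -/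
structure Base (K : Type) [Field K] [NumberField K] (𝔭 : HeightOneSpectrum (𝓞 K)) : Prop where
  /-- `K` is a quadratic field -/
  quad : Module.finrank ℚ K = 2
  /-- `K` contains `√-q`, where `q` is a prime number congruent to `7` modulo `8` -/
  root : ∃ q : ℕ, q.Prime ∧ q % 8 = 7 ∧ ∃ r : K, r ^ 2 = -(q : K)
  /-- `𝔭` lies above `2` -/
  two : (2 : 𝓞 K) ∈ 𝔭.asIdeal

/-- The ideal class of the prime ideal `v`. -/
noncomputable def cls {K : Type} [Field K] [NumberField K] (v : HeightOneSpectrum (𝓞 K)) : ClassGroup (𝓞 K) :=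
  ClassGroup.mk0 ⟨v.asIdeal, mem_nonZeroDivisors_of_ne_zero v.ne_bot⟩

/-- `H` is the Hilbert class field of `K`: it is a Galois extension of `K`, unramified at all prime ideals, and `a` is the
isomorphism of Artin from the class group of `K` to the Galois group: for almost all prime ideals `v` of `K` the class of `v`
is mapped to the Frobenius automorphism at the prime ideals of `H` above `v`. -/
structure HilbertClassField (K H : Type) [Field K] [NumberField K] [Field H] [NumberField H] [Algebra K H]
    (a : ClassGroup (𝓞 K) ≃* (H ≃ₐ[K] H)) : Prop where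
  galois : IsGalois K H
  unramified : Algebra.FormallyUnramified (𝓞 K) (𝓞 H)
  artin : ∃ S : Set (HeightOneSpectrum (𝓞 K)), S.Finite ∧ ∀ v ∉ S, ∀ w : HeightOneSpectrum (𝓞 H),
    w.asIdeal.under (𝓞 K) = v.asIdeal → ∀ y : 𝓞 H, a (cls v) • y - y ^ Ideal.absNorm v.asIdeal ∈ w.asIdeal

/-- `E'` is (isomorphic over `L` to) the quotient of the elliptic curve `E` by the subgroup of order two which is
generated by a point of `E(L)`. In an equation `y² = x³ + a x² + b x` of `E` this point is `(0, 0)`, and the quotient is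
`y² = x³ - 2 a x² + (a² - 4 b) x`. -/
def QuotientByTwo {L : Type} [Field L] (E E' : WeierstrassCurve L) : Prop :=
  ∃ (a b : L) (C C' : WeierstrassCurve.VariableChange L), b ≠ 0 ∧ a ^ 2 ≠ 4 * b ∧
    C • E = ⟨0, a, 0, b, 0⟩ ∧ C' • E' = ⟨0, -2 * a, 0, a ^ 2 - 4 * b, 0⟩

/-- There is an isogeny of degree `m` over `L` from `E` to `E'`: in suitable equations of `E`, `E'` with `a₁ = a₃ = 0` it is
given by `x ↦ p(x)/q(x)`, `y ↦ y (p/q)'(x)/c` with coprime polynomials `p`, `q`, `deg p = m > deg q`, and a constant `c`, and it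
is a homomorphism of groups on the points over every field over `L`. -/
def Isogeny {L : Type} [Field L] (m : ℕ) (E E' : WeierstrassCurve L) : Prop :=
  ∃ (C C' : WeierstrassCurve.VariableChange L) (p q : Polynomial L) (c : L), (C • E).a₁ = 0 ∧ (C • E).a₃ = 0 ∧
    (C' • E').a₁ = 0 ∧ (C' • E').a₃ = 0 ∧ IsCoprime p q ∧ p.natDegree = m ∧ q.natDegree < m ∧ c ≠ 0 ∧
    ∀ (M : Type) [Field M] (i : L →+* M),
      ∃ μ : ((C • E).map i).toAffine.Point →+ ((C' • E').map i).toAffine.Point, ∀ x y h,
        ((q.map i).eval x = 0 → μ (.some x y h) = 0) ∧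
        ((q.map i).eval x ≠ 0 → ∃ h', μ (.some x y h) = .some ((p.map i).eval x / (q.map i).eval x)
          (y * (((Polynomial.derivative p * q - p * Polynomial.derivative q).map i).eval x / (q.map i).eval x ^ 2) / i c) h')

/-- The curve `E` over `H` is a curve of Gross: the conjugate `E^σ` of `E` under the Frobenius automorphism `σ` of `𝔭` is the
quotient of `E` by a subgroup of order two which is generated by a point of `E(H)`, and the class group of `K` is generated
by the class of `𝔭` and the classes of the prime ideals `v` of odd prime norm such that there is an isogeny of degree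
`N v` over `H` from `E` to the conjugate of `E` under the Frobenius automorphism of `v`. -/
def GrossCurve {K H : Type} [Field K] [NumberField K] [Field H] [Algebra K H] (a : ClassGroup (𝓞 K) ≃* (H ≃ₐ[K] H))
    (𝔭 : HeightOneSpectrum (𝓞 K)) (E : WeierstrassCurve H) : Prop :=
  QuotientByTwo E (E.map (a (cls 𝔭) : H →+* H)) ∧
  Subgroup.closure ({cls 𝔭} ∪ {c | ∃ v : HeightOneSpectrum (𝓞 K), (Ideal.absNorm v.asIdeal).Prime ∧ (2 : 𝓞 K) ∉ v.asIdeal ∧
    c = cls v ∧ Isogeny (Ideal.absNorm v.asIdeal) E (E.map (a (cls v) : H →+* H))}) = ⊤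

/-- The quadratic twist of `E` by `d`: `E` has the equation `y² = x³ + (b₂/4) x² + (b₄/2) x + b₆/4`, the twist has the
equation `d y² = x³ + (b₂/4) x² + (b₄/2) x + b₆/4`, or `y² = x³ + d (b₂/4) x² + d² (b₄/2) x + d³ b₆/4`. -/
def twist {F : Type} [Field F] (E : WeierstrassCurve F) (d : F) : WeierstrassCurve F :=
  ⟨0, d * (E.b₂ / 4), 0, d ^ 2 * (E.b₄ / 2), d ^ 3 * (E.b₆ / 4)⟩

/-- `E` has good reduction at `w`: it has an equation which is integral at `w` and whose discriminant is a unit at `w`. -/
def GoodReduction {H : Type} [Field H] [NumberField H] (E : WeierstrassCurve H) (w : HeightOneSpectrum (𝓞 H)) : Prop :=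
  ∃ C : WeierstrassCurve.VariableChange H, w.valuation H (C • E).a₁ ≤ 1 ∧ w.valuation H (C • E).a₂ ≤ 1 ∧
    w.valuation H (C • E).a₃ ≤ 1 ∧ w.valuation H (C • E).a₄ ≤ 1 ∧ w.valuation H (C • E).a₆ ≤ 1 ∧
    w.valuation H (C • E).Δ = 1

/-- The prime ideals `v` of `K` not above `2` such that `E` has bad reduction at some prime ideal of `H` above `v`. -/
def badPrimes (K : Type) {H : Type} [Field K] [NumberField K] [Field H] [NumberField H] [Algebra K H]
    (E : WeierstrassCurve H) : Set (HeightOneSpectrum (𝓞 K)) :=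
  {v | (2 : 𝓞 K) ∉ v.asIdeal ∧ ∃ w : HeightOneSpectrum (𝓞 H), w.asIdeal.under (𝓞 K) = v.asIdeal ∧ ¬ GoodReduction E w}

/-- The rank conjecture, with rank `0`, for the elliptic curve `E` over `H`: Mathlib's `L`-series of `E` converges
absolutely for `Re s > 3/2` and extends to a meromorphic function `Λ` on `ℂ`, which is holomorphic at `1`, and the order
of vanishing of `Λ` at `s = 1` and the rank of `E` are both `0`. -/
def RankZero {H : Type} [Field H] [NumberField H] (E : WeierstrassCurve H) : Prop :=
  E.IsElliptic ∧ ∃ Λ : ℂ → ℂ, MeromorphicOn Λ Set.univ ∧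
    (∀ s : ℂ, 3 / 2 < s.re → LSeriesSummable (fun k => (E.LFunction k : ℂ)) s ∧ Λ s = E.LSeries s) ∧
    AnalyticAt ℂ Λ 1 ∧ meromorphicOrderAt Λ 1 = (Module.finrank ℤ E.toAffine.Point : ℤ) ∧ Λ 1 ≠ 0 ∧
    Finite E.toAffine.Point

/-- The classes in `K*/K*²` of the `d` such that the product of the norms of the prime ideals in `badPrimes` of the twist
of `E` by `d` is at most `X`, and the twist of `E` by `d` has the property `P`. (Up to isomorphism the twist depends only
on the class of `d`, so the choice of `d` in its class does not matter; the set `badPrimes` is finite.) -/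
def twists (K : Type) {H : Type} [Field K] [NumberField K] [Field H] [NumberField H] [Algebra K H]
    (E : WeierstrassCurve H) (X : ℕ) (P : WeierstrassCurve H → Prop) : Set (Kˣ ⧸ (powMonoidHom 2 : Kˣ →* Kˣ).range) :=
  {c | ∃ d : Kˣ, QuotientGroup.mk d = c ∧
    (∏ᶠ v ∈ badPrimes K (twist E (algebraMap K H d)), Ideal.absNorm v.asIdeal) ≤ X ∧ P (twist E (algebraMap K H d))}

/-- The main statement for the curve `E` over `H`: there are finitely many twists below each bound `X`, their number is
asymptotically a constant times `X`, and for every `c < (63/64) ∏ (1 - 2 ^ (-k)) = 0.28427…` (the product over `k ≥ 1`)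
at least the part `c` of them satisfies `RankZero`, if `X` is large. -/
def MostTwists (K : Type) {H : Type} [Field K] [NumberField K] [Field H] [NumberField H] [Algebra K H]
    (E : WeierstrassCurve H) : Prop :=
  (∀ X : ℕ, (twists K E X fun _ => True).Finite) ∧
  (∃ κ : ℝ, 0 < κ ∧ Tendsto (fun X : ℕ => ((twists K E X fun _ => True).ncard : ℝ) / X) atTop (𝓝 κ)) ∧
  ∀ c : ℝ, c < 63 / 64 * ∏' k : ℕ, (1 - 1 / 2 ^ (k + 1)) → ∃ X₀ : ℕ, ∀ X : ℕ, X₀ ≤ X →
    c * ((twists K E X fun _ => True).ncard : ℝ) ≤ ((twists K E X RankZero).ncard : ℝ)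

/-- The example `q = 23`: `K = ℚ(√-23)` has class number `3`, its Hilbert class field is `H = K(θ)` with `θ³ = θ + 1`, and
the curve `y² = x (x + 1) (x + 1 - t⁴)` is a curve of Gross, where `46 t = -23 - s - 8 s θ + (46 - 10 s) θ²`,
`s = √-23`. -/
def Example23 : Prop :=
  (∃ (K H : Type) (_ : Field K) (_ : NumberField K) (_ : Field H) (_ : NumberField H) (_ : Algebra K H),
    Module.finrank ℚ K = 2 ∧ (∃ r : K, r ^ 2 = -23) ∧ Module.finrank K H = 3 ∧ ∃ θ : H, θ ^ 3 = θ + 1) ∧
  ∀ (K H : Type) [Field K] [NumberField K] [Field H] [NumberField H] [Algebra K H], Module.finrank ℚ K = 2 →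
    Module.finrank K H = 3 → ∀ (r : K) (θ : H), r ^ 2 = -23 → θ ^ 3 = θ + 1 →
      classNumber K = 3 ∧ ∀ s t : H, s = algebraMap K H r → 46 * t = -23 - s - 8 * s * θ + (46 - 10 * s) * θ ^ 2 →
        ∃ (a : ClassGroup (𝓞 K) ≃* (H ≃ₐ[K] H)) (𝔭 : HeightOneSpectrum (𝓞 K)), Base K 𝔭 ∧ HilbertClassField K H a ∧
          GrossCurve a 𝔭 (⟨0, 2 - t ^ 4, 0, 1 - t ^ 4, 0⟩ : WeierstrassCurve H)

theorem mostTwists (K H : Type) [Field K] [NumberField K] [Field H] [NumberField H] [Algebra K H]
    (a : ClassGroup (𝓞 K) ≃* (H ≃ₐ[K] H)) (𝔭 : HeightOneSpectrum (𝓞 K)) (hK : Base K 𝔭) (hH : HilbertClassField K H a)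
    (E : WeierstrassCurve H) (hE : GrossCurve a 𝔭 E) : MostTwists K E := by
  obtain ⟨q, hq, hq8, r, hr⟩ := hK.root
  have Q : GRO.QK K := ⟨q, hq, hq8, hK.quad, r, hr⟩
  obtain ⟨h1, h2, h3⟩ := GRA.main_all Q hK.two (a := a) hH.artin hH.galois hH.unramified (E := E) ⟨hE.1, hE.2⟩
  refine ⟨h1, h2, fun c hc => ?_⟩
  obtain ⟨X₀, hX⟩ := h3 (63 / 64 * TRP.cinf - c) (sub_pos.2 hc)
  refine ⟨X₀, fun X h => ?_⟩
  have h4 := hX X h
  rw [sub_sub_cancel] at h4
  exact h4

theorem example23 : Example23 := by
  constructor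
  · obtain ⟨K, H, i1, i2, j1, j2, j3, ⟨F⟩⟩ := GRO.nv5_F23
    exact ⟨K, H, i1, i2, j1, j2, j3, F.rank, ⟨F.r, F.hr⟩, F.rankH, F.θ, F.hθ⟩
  · intro K H _ _ _ _ _ h1 h2 r θ hr hθ
    let F : GRO.F23 K H := ⟨r, hr, h1, θ, hθ, h2⟩
    obtain ⟨P, hP⟩ := GRO.nv1_exists_two K
    have hcl := GRO.nv1_card F.qk rfl P hP
    refine ⟨hcl, fun s t hs ht => ?_⟩
    obtain ⟨P', a, h2', ha, hE⟩ := GRA.exists_grossAll F.qk P hP (by rw [hcl]; decide) (GRO.nv1_class F.qk rfl P hP).1
      F.hilb (F.gross_x hs ht)
    exact ⟨a, P', ⟨h1, ⟨23, by norm_num, by norm_num, r, by rw [hr]; norm_num⟩, h2'⟩, ⟨F.hilb.gal, F.hilb.unr, ha⟩,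
      hE.two, hE.gen⟩

/-- Let `q` be any prime number congruent to `7` modulo `8`, `K = ℚ(√-q)`, `𝔭` a prime ideal of `K` above `2`, `H` the
Hilbert class field of `K` and `E` a curve of Gross over `H`. Then the conclusion `MostTwists` holds: of the quadratic twists
of `E` by the elements of `K*/K*²`, ordered by the product of the norms of the bad odd prime ideals of `K`, at least the part
`(63/64) ∏ (1 - 2 ^ (-k)) = 0.28427…` satisfies `RankZero`. The second clause is an example with class number `3`.

Remarks (not proved in Lean): for every prime number `q` congruent to `7` modulo `8` such curves `E` exist (Gross, Arithmetic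
on elliptic curves with complex multiplication, 1980: the curve `A(q)`); class field theory gives the field `H` and the
isomorphism `a`. If the class of `𝔭` generates the class group (`q = 7, 23, 31, 47, 71, …`) no isogeny of odd degree is
needed in `GrossCurve`. An elliptic curve over `H` is a curve of Gross if and only if it has complex multiplication by the
ring of integers of `K` and is isogenous over `H` to its conjugates over `K`. (Composing the isogenies `E → E^σ → … → E` of
degree two one gets an endomorphism whose degree is an odd power of `2`; conversely, `E^σ` and the quotient of `E` by the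
kernel of `𝔭` are twists of each other by a quadratic character, and isogenous.) -/
theorem result :
    (∀ (K H : Type) [Field K] [NumberField K] [Field H] [NumberField H] [Algebra K H]
      (a : ClassGroup (𝓞 K) ≃* (H ≃ₐ[K] H)) (𝔭 : HeightOneSpectrum (𝓞 K)), Base K 𝔭 → HilbertClassField K H a →
      ∀ E : WeierstrassCurve H, GrossCurve a 𝔭 E → MostTwists K E) ∧
    Example23 :=
  ⟨fun K H _ _ _ _ _ a 𝔭 hK hH E hE => mostTwists K H a 𝔭 hK hH E hE, example23⟩

end Pool.Agent.Results.MP_ae0bd0_nt.GrossCurves
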