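import Mathlib
import Pool.Agent.UNI.Final

/-!
An `l`-converse theorem (finitely many points and no element of order `l` in the Tate–Shafarevich group imply that
the `L`-function does not vanish at `1`) for all elliptic curves over an imaginary quadratic field `K` with complex
multiplication by the ring of integers of `K` and a `K`-rational point of prime order `l`, where `l` divides the
number of units; and the exact proportion of the curves to which it applies.
-/

set_option autoImplicit false

open NumberField Filter Topology
open scoped Classical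

namespace Pool.Agent.Results.MP_ae0bd0_nt.UniformCM

/-- The nine pairs `(n, j)` such that `ℚ(√-n)` has class number one and `j` is the `j`-invariant of the elliptic
curves with complex multiplication by the ring of integers of `ℚ(√-n)`. (Every elliptic curve over an imaginary
quadratic field `K` with complex multiplication by the ring of integers of `K` is of this kind.) -/
def IsCMPair (n : ℕ) (j : ℤ) : Prop :=
  (n = 1 ∧ j = 1728) ∨ (n = 2 ∧ j = 8000) ∨ (n = 3 ∧ j = 0) ∨ (n = 7 ∧ j = -3375) ∨
    (n = 11 ∧ j = -32768) ∨ (n = 19 ∧ j = -884736) ∨ (n = 43 ∧ j = -884736000) ∨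
    (n = 67 ∧ j = -147197952000) ∨ (n = 163 ∧ j = -262537412640768000)

/-- `E` has a point of order `l` over `K` (`l` a prime number). -/
def HasPoint (l : ℕ) {K : Type} [Field K] [NumberField K] (E : WeierstrassCurve K) : Prop :=
  ∃ P : E.toAffine.Point, P ≠ 0 ∧ l • P = 0

/-- All points of order `2` of `E` are defined over `K` (`E` has two different `K`-points of order `2`). -/
def HasFullTwo {K : Type} [Field K] [NumberField K] (E : WeierstrassCurve K) : Prop :=
  ∃ P Q : E.toAffine.Point, P ≠ 0 ∧ Q ≠ 0 ∧ P ≠ Q ∧ P + P = 0 ∧ Q + Q = 0

/-- `E` has a Weierstrass equation with coefficients in the ring of integers of `K` whose discriminant has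
norm at most `X`. For the fields below (which have class number one), this means that the norm of the
minimal discriminant of `E` is at most `X`. -/
def MinDiscLE {K : Type} [Field K] [NumberField K] (E : WeierstrassCurve K) (X : ℕ) : Prop :=
  ∃ (M : WeierstrassCurve (𝓞 K)) (C : WeierstrassCurve.VariableChange K),
    E = C • M.map (algebraMap (𝓞 K) K) ∧ Ideal.absNorm (Ideal.span {M.Δ}) ≤ X

/-- The isomorphism classes over `K` of the elliptic curves over `K` with `j`-invariant `j` and
minimal discriminant of norm at most `X` which contain a curve `E` (given by a Weierstrass equation) with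
the property `P`. -/
def classes (K : Type) [Field K] [NumberField K] (j : K) (P : WeierstrassCurve K → Prop) (X : ℕ) :
    Set (MulAction.orbitRel.Quotient (WeierstrassCurve.VariableChange K) (WeierstrassCurve K)) :=
  {c | ∃ E : WeierstrassCurve K, Quotient.mk _ E = c ∧ (∃ _ : E.IsElliptic, E.j = j) ∧
    MinDiscLE E X ∧ P E}

/-- The limits of the proportions: about 0.419 for `n = 1`, `l = 2` and for `n = 2`, `l = 2`; 0.569 for
`n = 3`, `l = 2`; 0.639 for `n = 3`, `l = 3`; 0.289 for `n = 7`, `l = 2`. -/
noncomputable def limit (n l : ℕ) : ℝ :=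
  if l = 3 then (∏' k : ℕ, (1 + (1 / 3 : ℝ) ^ (k + 1)))⁻¹
  else if n = 7 then ∏' k : ℕ, (1 - (1 / 2 : ℝ) ^ (k + 1))
  else if n = 3 then (∏' k : ℕ, (1 + (1 / 2 : ℝ) ^ (2 * k + 1)))⁻¹
  else (∏' k : ℕ, (1 + (1 / 2 : ℝ) ^ (k + 1)))⁻¹

/-- `E(K)` is finite and the Tate–Shafarevich group of `E` over `K` has no element of order `l`. -/
def Minimal (l : ℕ) {K : Type} [Field K] [NumberField K] (E : WeierstrassCurve K) : Prop :=
  Finite E.toAffine.Point ∧ ∀ x : SBSD.Sha E, l • x = 0 → x = 0

/-- The `L`-series of the elliptic curve `E` over `K`, which converges absolutely for `Re s > 3/2`, extends to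
an entire function `Λ`; if `E(K)` is finite and the Tate–Shafarevich group has no element of order `l`, then
`Λ(1) ≠ 0`, and the order of vanishing of `Λ` at `s = 1` and the rank of `E` are equal (to `0`). -/
def Converse (l : ℕ) {K : Type} [Field K] [NumberField K] (E : WeierstrassCurve K) : Prop :=
  E.IsElliptic ∧ ∃ Λ : ℂ → ℂ, Differentiable ℂ Λ ∧
    (∀ s : ℂ, 3 / 2 < s.re →
      LSeriesSummable (fun k => (E.LFunction k : ℂ)) s ∧ Λ s = E.LSeries s) ∧
    (Minimal l E → Λ 1 ≠ 0 ∧ analyticOrderAt Λ 1 = Module.finrank ℤ E.toAffine.Point)

theorem converse_of {l : ℕ} {K : Type} [Field K] [NumberField K] {E : WeierstrassCurve K}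
    (h : UNI.ModEll l E) : Converse l E := by
  obtain ⟨h1, L, ⟨h3, h4⟩, q, hq, -, hiff⟩ := h
  refine ⟨h1, L, h3, h4, fun hm => ?_⟩
  have hfin := hm.1
  have hL1 : L 1 ≠ 0 := by
    intro h0
    rw [SBSD2.bsdQuotient, h0, zero_mul, zero_mul, zero_div] at hq
    exact (hiff.2 hm).1 (by exact_mod_cast hq.symm)
  exact ⟨hL1, CMT.order_eq _ (AnalyticAt.analyticOrderAt_eq_zero (h3.analyticAt 1) |>.2 hL1)⟩

/-- Let `K` be an imaginary quadratic field (a subfield of `ℂ`), `l` a prime number which divides the order of the
group of units of the ring of integers of `K` (that is: `K` contains the `l`-th roots of unity), and consider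
ALL elliptic curves `E` over `K` with complex multiplication by the ring of integers of `K` which have a
`K`-rational point of order `l`. (By the theorem of Heegner, Baker and Stark `K = ℚ(√-n)` and the `j`-invariant
is `j`, for one of the nine pairs `(n, j)` of `IsCMPair`. The primes `l` are excluded in the theorems of Rubin
on these curves.)

(a) EVERY such curve satisfies: the `L`-series is entire, and if `E(K)` is finite and the Tate–Shafarevich group
of `E` over `K` has no element of order `l` (`Minimal`), then `L(E, 1) ≠ 0`, so that the rank conjecture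
holds for `E` with rank `0` (`Converse` above; a converse to the theorem of Coates and Wiles).

(b) The property `Minimal` (which implies the rank conjecture with rank `0`, by (a)) holds for a positive
proportion of these curves, which is exactly known:
There are such curves only for `n = 1, 2, 7`, `l = 2` (then EVERY curve `E` has a point of order `2`) and for
`n = 3`, `l = 2` or `l = 3` (the last two assertions of the theorem). For these `n`, the number of isomorphism classes with
minimal discriminant of norm at most `X` is finite and tends to infinity with `X`, and the proportion of the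
classes with this property TENDS TO `limit n l` (about 0.419 for `n = 1, 2`, `l = 2`; 0.569 for `n = 3`, `l = 2`;
0.639 for `n = 3`, `l = 3`; 0.289 for `n = 7`, `l = 2`).

(c) For `n = 1` (so `l = 2`), assertion (b) holds also, with the same limit, for the curves all of whose points of
order `2` are rational over `K` (a family of density zero among all curves, for which (b) says nothing). -/
theorem result (K : IntermediateField ℚ ℂ) [NumberField K] (hK : Module.finrank ℚ K = 2)
    (n : ℕ) (j : ℤ) (h : IsCMPair n j) (hr : ∃ r : K, r ^ 2 = -(n : K))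
    (l : ℕ) (hl : l.Prime) (hz : ∃ ζ : K, IsPrimitiveRoot ζ l) :
    (∀ E : WeierstrassCurve K, (∃ _ : E.IsElliptic, E.j = (j : K)) → HasPoint l E → Converse l E) ∧
    ((n = 1 ∨ n = 2 ∨ n = 3 ∨ n = 7) →
      (∀ X : ℕ, (classes K j (HasPoint l) X).Finite) ∧
      Tendsto (fun X => (classes K j (HasPoint l) X).ncard) atTop atTop ∧
      Tendsto (fun X => ((classes K j (fun E => HasPoint l E ∧ Minimal l E) X).ncard : ℝ) /
        ((classes K j (HasPoint l) X).ncard : ℝ)) atTop (𝓝 (limit n l))) ∧
    (n = 1 →
      (∀ X : ℕ, (classes K j HasFullTwo X).Finite) ∧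
      Tendsto (fun X => (classes K j HasFullTwo X).ncard) atTop atTop ∧
      Tendsto (fun X => ((classes K j (fun E => HasFullTwo E ∧ Minimal l E) X).ncard : ℝ) /
        ((classes K j HasFullTwo X).ncard : ℝ)) atTop (𝓝 (limit 1 2))) ∧
    ((n = 1 ∨ n = 2 ∨ n = 7) →
      ∀ E : WeierstrassCurve K, (∃ _ : E.IsElliptic, E.j = (j : K)) → HasPoint l E) ∧
    (¬ (n = 1 ∨ n = 2 ∨ n = 3 ∨ n = 7) →
      ∀ E : WeierstrassCurve K, (∃ _ : E.IsElliptic, E.j = (j : K)) → ¬ HasPoint l E) := by
  exact UNI.final K hK (PA := Converse l) (PB := Minimal l) (fun _ h => converse_of h) (fun _ _ => Iff.rfl) n j h hr hl hz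

end Pool.Agent.Results.MP_ae0bd0_nt.UniformCM
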